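import Mathlib
import Pool.Agent.H51.ZB.Den2

set_option autoImplicit false

/-!
The admissible integers of MP_a048aa form an additive basis, also with the residue classes of
all summands prescribed.
-/

namespace Pool.Agent.Results.MP_a048aa_nt.AdditiveBasis

open Matrix Pool.Agent.H51.ZB

/-- The property of the question: `q` is the denominator of a reduced fraction
`[a 0, ..., a n]`, `n ≥ 1`, all digits in `{1,2}`, with `a 1 = a n = 2`. -/
def Admissible (q : ℤ) : Prop :=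
  ∃ p : ℤ, IsCoprime p q ∧
    ∃ n : ℕ, ∃ a : ℕ → ℤ, 1 ≤ n ∧
      (∀ i, i ≤ n → (a i = 1 ∨ a i = 2)) ∧
      a 1 = 2 ∧ a n = 2 ∧
      (List.map (fun i => !![a i, 1; 1, 0]) (List.range (n + 1))).prod 0 0 = p ∧
      (List.map (fun i => !![a i, 1; 1, 0]) (List.range (n + 1))).prod 1 0 = q

theorem adm_of_word (w : List ℤ) (hw : Word12 w) (hne : w ≠ [])
    (h1 : w.head? = some 2) (h2 : w.getLast? = some 2) : Admissible (cmat w 0 0) := by
  classical
  have hlen : 1 ≤ w.length := List.length_pos_iff.mpr hne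
  set a : ℕ → ℤ := fun i => if i = 0 then 1 else w.getD (i - 1) 1 with ha
  have hmap : (List.map (fun i => (!![a i, 1; 1, 0] : Matrix (Fin 2) (Fin 2) ℤ))
      (List.range (w.length + 1))).prod = !![1, 1; 1, 0] * cmat w := by
    rw [List.range_succ_eq_map, List.map_cons, List.prod_cons, List.map_map]
    congr 1
    unfold cmat
    congr 1
    apply List.ext_getElem
    · simp
    · intro i hi1 hi2
      simp only [List.length_map, List.length_range] at hi1
      simp [ha, List.getElem?_eq_getElem hi1]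
  have hdet := det_cmat w
  rw [Matrix.det_fin_two] at hdet
  refine ⟨cmat w 0 0 + cmat w 1 0, ?_, w.length, a, hlen, ?_, ?_, ?_, ?_, ?_⟩
  · rcases hdet with h | h
    · exact ⟨-cmat w 0 1, cmat w 1 1 + cmat w 0 1, by linarith⟩
    · exact ⟨cmat w 0 1, -cmat w 1 1 - cmat w 0 1, by linarith⟩
  · intro i hi
    rcases Nat.eq_zero_or_pos i with h0 | h0
    · left; simp [ha, h0]
    · have hi' : i - 1 < w.length := by omega
      have : a i = w[i - 1] := by
        simp [ha, Nat.pos_iff_ne_zero.mp h0, List.getElem?_eq_getElem hi']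
      rw [this]
      exact hw _ (List.getElem_mem hi')
  · rcases w with _ | ⟨b, w⟩
    · exact absurd rfl hne
    · simp at h1
      simp [ha, h1]
  · have h3 : w[w.length - 1]? = some 2 := by
      rw [← List.getLast?_eq_getElem?]; exact h2
    have h4 : w.length ≠ 0 := by omega
    simp [ha, h4, h3]
  · rw [hmap]
    simp [Matrix.mul_apply, Fin.sum_univ_two]
  · rw [hmap]
    simp [Matrix.mul_apply, Fin.sum_univ_two]

theorem spread {p : ℕ → Prop} {k n : ℕ} (h : IsSum p k n) :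
    ∃ t : Fin k → ℕ, (∀ j, p (t j)) ∧ ∑ j, t j = n := by
  obtain ⟨s, hs1, hs2, hs3⟩ := h
  obtain ⟨l, rfl⟩ := Quot.exists_rep s
  have hl : l.length = k := hs1
  subst hl
  refine ⟨l.get, fun j => hs2 _ (List.get_mem l j), ?_⟩
  rw [← hs3]
  have e : (Multiset.sum (Quot.mk _ l : Multiset ℕ)) = l.sum := Multiset.sum_coe l
  rw [e]
  simp

/-- For every modulus `m` there is `k₀` such that for all `k ≥ k₀` and all residues
`r 0, ..., r (k - 1)` modulo `m`, every sufficiently large `n ≡ r 0 + ... + r (k - 1)` is a sum of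
admissible integers `q i ≡ r i` modulo `m`. -/
theorem result (m : ℕ) (hm : 0 < m) : ∃ k₀ : ℕ, ∀ k : ℕ, k₀ ≤ k → ∃ n₀ : ℤ,
    ∀ r : Fin k → ZMod m, ∀ n : ℤ, n₀ ≤ n → (n : ZMod m) = ∑ i, r i →
    ∃ q : Fin k → ℤ, (∀ i, Admissible (q i) ∧ ((q i : ℤ) : ZMod m) = r i) ∧ ∑ i, q i = n := by
  classical
  have : NeZero m := ⟨hm.ne'⟩
  choose K hK using basis2 m
  choose g hg0 hg using fun ρ : ZMod m => exists_valR m ρ 0
  refine ⟨∑ ρ, K ρ + 1, fun k hk => ?_⟩
  have hval : ∀ (x : ℕ) (ρ : ZMod m), ValR m ρ x →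
      Admissible (x : ℤ) ∧ (((x : ℕ) : ℤ) : ZMod m) = ρ := by
    intro x ρ hx
    obtain ⟨⟨w, hw, hne, h1, h2, h3⟩, h4⟩ := hx
    refine ⟨?_, ?_⟩
    · rw [← h3]
      exact adm_of_word w hw hne h1 h2
    · rw [← h4]
      push_cast
      rfl
  have key : ∀ r : Fin k → ZMod m, ∃ n₀ : ℤ, ∀ n : ℤ, n₀ ≤ n → (n : ZMod m) = ∑ i, r i →
      ∃ q : Fin k → ℤ, (∀ i, Admissible (q i) ∧ ((q i : ℤ) : ZMod m) = r i) ∧ ∑ i, q i = n := by
    intro r
    obtain ⟨ρ, hρ⟩ : ∃ ρ, K ρ ≤ (Finset.univ.filter (fun i => r i = ρ)).card := by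
      by_contra hcon
      push Not at hcon
      have h1 : (Finset.univ : Finset (Fin k)).card
          = ∑ ρ : ZMod m, (Finset.univ.filter (fun i => r i = ρ)).card :=
        Finset.card_eq_sum_card_fiberwise (fun w _ => Finset.mem_coe.mpr (Finset.mem_univ _))
      have h2 : ∑ ρ : ZMod m, (Finset.univ.filter (fun i => r i = ρ)).card ≤ ∑ ρ, K ρ :=
        Finset.sum_le_sum (fun ρ _ => (hcon ρ).le)
      rw [Finset.card_fin] at h1
      omega
    obtain ⟨I, hI⟩ : ∃ I, I = Finset.univ.filter (fun i => r i = ρ) := ⟨_, rfl⟩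
    rw [← hI] at hρ
    have hIm : ∀ i, i ∈ I ↔ r i = ρ := by intro i; rw [hI]; simp
    obtain ⟨n₀, hn₀⟩ := hK ρ I.card hρ
    obtain ⟨G, hG⟩ : ∃ G : ℕ, G = ∑ i ∈ Iᶜ, g (r i) := ⟨_, rfl⟩
    refine ⟨n₀ + G, fun n hn hnr => ?_⟩
    obtain ⟨n', hn'⟩ : ∃ n' : ℕ, (n' : ℤ) = n - G :=
      ⟨(n - G).toNat, Int.toNat_of_nonneg (by omega)⟩
    have hGc : (G : ZMod m) = ∑ i ∈ Iᶜ, r i := by
      rw [hG]
      push_cast
      exact Finset.sum_congr rfl (fun i _ => (hg (r i)).2)
    have hcong : (n' : ZMod m) = I.card * ρ := by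
      have h1 : ((n' : ℤ) : ZMod m) = ((n - G : ℤ) : ZMod m) := by rw [hn']
      push_cast at h1
      rw [h1, hnr, hGc, ← Finset.sum_add_sum_compl I, add_sub_cancel_right,
        Finset.sum_congr rfl (fun i hi => (hIm i).mp hi), Finset.sum_const, nsmul_eq_mul]
    obtain ⟨t, ht, hts⟩ := spread (hn₀ n' (by omega) hcong)
    set e : ↥I ≃ Fin I.card := I.equivFin with he
    refine ⟨fun i => if h : i ∈ I then ((t (e ⟨i, h⟩) : ℕ) : ℤ) else ((g (r i) : ℕ) : ℤ),
      fun i => ?_, ?_⟩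
    · by_cases h : i ∈ I
      · simp only [h, dite_true]
        have h1 := hval _ _ (ht (e ⟨i, h⟩))
        rw [(hIm i).mp h]
        exact h1
      · simp only [h, dite_false]
        exact hval _ _ (hg (r i))
    · rw [← Finset.sum_add_sum_compl I]
      have h1 : ∑ i ∈ I, (if h : i ∈ I then ((t (e ⟨i, h⟩) : ℕ) : ℤ) else ((g (r i) : ℕ) : ℤ))
          = (n' : ℤ) := by
        rw [← Finset.sum_coe_sort I, ← hts]
        push_cast
        rw [← Equiv.sum_comp e]
        exact Finset.sum_congr rfl (fun i _ => by simp)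
      have h2 : ∑ i ∈ Iᶜ, (if h : i ∈ I then ((t (e ⟨i, h⟩) : ℕ) : ℤ) else ((g (r i) : ℕ) : ℤ))
          = (G : ℤ) := by
        rw [hG]
        push_cast
        exact Finset.sum_congr rfl (fun i hi => by simp [Finset.mem_compl.mp hi])
      rw [h1, h2]
      omega
  choose N₀ hN₀ using key
  obtain ⟨M, hM⟩ := (Set.finite_range N₀).bddAbove
  exact ⟨M, fun r n hn hnr => hN₀ r n ((hM ⟨r, rfl⟩).trans hn) hnr⟩

end Pool.Agent.Results.MP_a048aa_nt.AdditiveBasis
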