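import Mathlib
import Pool.Agent.H75.ZT.Trip

/-!
# MP_a048aa, Q1: three consecutive admissible integers

Let `K` be the continuant. For every word `v` over `{1,2}`, with reversal `v'`, the integer `n = K(2 v 1 1 2 1 1 v' 2)` is
equal to `2 K(2 v 2) K(2 v 1 2)`, and `K(2 v' 1 1 1 2 v 1 2)`, `K(2 v' 2 1 1 1 v 1 2)` are `n - 1`, `n + 1` in some order.
-/

set_option autoImplicit false

namespace Pool.Agent.Results.MP_a048aa_nt.TriplesInClasses

open Pool.Agent.H75.ZT

/-- For every modulus `m ≥ 1` and every `c`, for all large `N` there are at least `N ^ 0.53` integers `n` with `0 < n ≤ N`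
and `n` congruent to `2 c` modulo `m` such that `n - 1`, `n` and `n + 1` are all admissible. -/
theorem result (m : ℕ) (hm : 0 < m) (c : ℤ) : ∃ N₀ : ℕ, ∀ N : ℕ, N₀ ≤ N → (N : ℝ) ^ (0.53 : ℝ) ≤
    ({n : ℤ | 0 < n ∧ n ≤ N ∧ n ≡ 2 * c [ZMOD m] ∧ Admissible (n - 1) ∧ Admissible n ∧
      Admissible (n + 1)}.ncard : ℝ) :=
  triples m hm c

end Pool.Agent.Results.MP_a048aa_nt.TriplesInClasses
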