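import Mathlib

set_option autoImplicit false

/-!
Counting admissible integers at a prescribed distance in residue classes (MP_a048aa).

We write `cmat w` for the product of the matrices with rows (a, 1) and (1, 0) over the word `w`,
so that its entries are the continuants of `w`, of `w` without its last letter, of `w` without its
first letter, and of `w` without both.
-/

namespace Pool.Agent.Results.MP_a048aa_nt.TwinCount

open Matrix

/-- The property of the question: `q` is the denominator of a reduced fraction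
`[a 0, ..., a n]`, `n ≥ 1`, all digits in `{1,2}`, with `a 1 = a n = 2`. -/
def Admissible (q : ℤ) : Prop :=
  ∃ p : ℤ, IsCoprime p q ∧
    ∃ n : ℕ, ∃ a : ℕ → ℤ, 1 ≤ n ∧
      (∀ i, i ≤ n → (a i = 1 ∨ a i = 2)) ∧
      a 1 = 2 ∧ a n = 2 ∧
      (List.map (fun i => !![a i, 1; 1, 0]) (List.range (n + 1))).prod 0 0 = p ∧
      (List.map (fun i => !![a i, 1; 1, 0]) (List.range (n + 1))).prod 1 0 = q

/-- The matrix of continuants of the word `w`. -/
def cmat (w : List ℤ) : Matrix (Fin 2) (Fin 2) ℤ :=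
  (w.map (fun a => !![a, 1; 1, 0])).prod

/-- `w` is a word over the alphabet `{1,2}`. -/
def Word12 (w : List ℤ) : Prop := ∀ a ∈ w, a = 1 ∨ a = 2

theorem cmat_nil : cmat [] = 1 := rfl

theorem cmat_cons (a : ℤ) (w : List ℤ) : cmat (a :: w) = !![a, 1; 1, 0] * cmat w := by
  simp [cmat]

theorem cmat_append (u v : List ℤ) : cmat (u ++ v) = cmat u * cmat v := by
  simp [cmat]

theorem cmat_reverse (w : List ℤ) : cmat w.reverse = (cmat w)ᵀ := by
  induction w with
  | nil => simp [cmat]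
  | cons a w ih =>
    have h1 : cmat [a] = (!![a, 1; 1, 0] : Matrix (Fin 2) (Fin 2) ℤ)ᵀ := by
      ext i j
      fin_cases i <;> fin_cases j <;> simp [cmat]
    rw [List.reverse_cons, cmat_append, ih, cmat_cons a w, Matrix.transpose_mul, h1]

theorem det_cmat (w : List ℤ) : (cmat w).det = 1 ∨ (cmat w).det = -1 := by
  induction w with
  | nil => left; simp [cmat]
  | cons a w ih =>
    rw [cmat_cons, Matrix.det_mul]
    have h : (!![a, 1; 1, 0] : Matrix (Fin 2) (Fin 2) ℤ).det = -1 := by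
      simp [Matrix.det_fin_two]
    rw [h]
    rcases ih with h1 | h1 <;> rw [h1] <;> simp

theorem entries_cons (a : ℤ) (w : List ℤ) :
    cmat (a :: w) 0 0 = a * cmat w 0 0 + cmat w 1 0 ∧ cmat (a :: w) 1 0 = cmat w 0 0 := by
  rw [cmat_cons]
  constructor <;> simp [Matrix.mul_apply, Fin.sum_univ_two]

theorem growth (w : List ℤ) (hw : Word12 w) :
    1 ≤ cmat w 0 0 ∧ 0 ≤ cmat w 1 0 ∧ (w ≠ [] → 1 ≤ cmat w 1 0) ∧ (w.length : ℤ) ≤ cmat w 0 0 := by
  induction w with
  | nil => simp [cmat]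
  | cons a w ih =>
    have hw' : Word12 w := fun b hb => hw b (List.mem_cons_of_mem _ hb)
    obtain ⟨h1, h2, h3, h4⟩ := ih hw'
    obtain ⟨e1, e2⟩ := entries_cons a w
    have ha : 1 ≤ a := by
      rcases hw a (List.mem_cons_self) with h | h <;> omega
    have hm : cmat w 0 0 ≤ a * cmat w 0 0 := by nlinarith
    refine ⟨by omega, by omega, fun _ => by omega, ?_⟩
    rw [e1]
    rcases w with _ | ⟨b, w⟩
    · simp at h4 h1 ⊢
      omega
    · have := h3 (by simp)
      simp only [List.length_cons] at h4 ⊢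
      push_cast at h4 ⊢
      omega

theorem adm_of_word (w : List ℤ) (hw : Word12 w) (hne : w ≠ [])
    (h1 : w.head? = some 2) (h2 : w.getLast? = some 2) : Admissible (cmat w 0 0) := by
  classical
  have hlen : 1 ≤ w.length := List.length_pos_iff.mpr hne
  set a : ℕ → ℤ := fun i => if i = 0 then 1 else w.getD (i - 1) 1 with ha
  have hmap : (List.map (fun i => (!![a i, 1; 1, 0] : Matrix (Fin 2) (Fin 2) ℤ))
      (List.range (w.length + 1))).prod = !![1, 1; 1, 0] * cmat w := by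
    rw [List.range_succ_eq_map, List.map_cons, List.prod_cons, List.map_map]
    congr 1
    unfold cmat
    congr 1
    apply List.ext_getElem
    · simp
    · intro i hi1 hi2
      simp only [List.length_map, List.length_range] at hi1
      simp [ha, List.getElem?_eq_getElem hi1]
  have hdet := det_cmat w
  rw [Matrix.det_fin_two] at hdet
  refine ⟨cmat w 0 0 + cmat w 1 0, ?_, w.length, a, hlen, ?_, ?_, ?_, ?_, ?_⟩
  · rcases hdet with h | h
    · exact ⟨-cmat w 0 1, cmat w 1 1 + cmat w 0 1, by linarith⟩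
    · exact ⟨cmat w 0 1, -cmat w 1 1 - cmat w 0 1, by linarith⟩
  · intro i hi
    rcases Nat.eq_zero_or_pos i with h0 | h0
    · left; simp [ha, h0]
    · have hi' : i - 1 < w.length := by omega
      have : a i = w[i - 1] := by
        simp [ha, Nat.pos_iff_ne_zero.mp h0, List.getElem?_eq_getElem hi']
      rw [this]
      exact hw _ (List.getElem_mem hi')
  · rcases w with _ | ⟨b, w⟩
    · exact absurd rfl hne
    · simp at h1
      simp [ha, h1]
  · have h3 : w[w.length - 1]? = some 2 := by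
      rw [← List.getLast?_eq_getElem?]; exact h2
    have h4 : w.length ≠ 0 := by omega
    simp [ha, h4, h3]
  · rw [hmap]
    simp [Matrix.mul_apply, Fin.sum_univ_two]
  · rw [hmap]
    simp [Matrix.mul_apply, Fin.sum_univ_two]

/-- The basic identity: reversing the middle block. -/
theorem swap (X c u v : List ℤ) :
    cmat ((c ++ u).reverse ++ X ++ (c ++ v)) 0 0 - cmat ((c ++ u).reverse ++ X.reverse ++ (c ++ v)) 0 0
      = (cmat c).det * ((cmat X 0 1 - cmat X 1 0)
          * (cmat u 0 0 * cmat v 1 0 - cmat u 1 0 * cmat v 0 0)) := by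
  simp only [cmat_append, cmat_reverse, Matrix.det_fin_two, Matrix.mul_apply, Fin.sum_univ_two,
    Matrix.transpose_apply]
  ring


/-- The matrix with rows (a, 1) and (1, 0) as a unit over `ZMod q`. -/
def um (q : ℕ) (a : ℤ) : (Matrix (Fin 2) (Fin 2) (ZMod q))ˣ where
  val := !![(a : ZMod q), 1; 1, 0]
  inv := !![0, 1; 1, -(a : ZMod q)]
  val_inv := by
    ext i j
    fin_cases i <;> fin_cases j <;> simp [Matrix.mul_apply, Fin.sum_univ_two]
  inv_val := by
    ext i j
    fin_cases i <;> fin_cases j <;> simp [Matrix.mul_apply, Fin.sum_univ_two]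

/-- The product of the units `um q a` over a word. -/
def up (q : ℕ) (w : List ℤ) : (Matrix (Fin 2) (Fin 2) (ZMod q))ˣ := (w.map (um q)).prod

theorem up_append (q : ℕ) (v w : List ℤ) : up q (v ++ w) = up q v * up q w := by
  simp [up]

theorem up_val (q : ℕ) (w : List ℤ) :
    ((up q w : (Matrix (Fin 2) (Fin 2) (ZMod q))ˣ) : Matrix (Fin 2) (Fin 2) (ZMod q))
      = (Int.castRingHom (ZMod q)).mapMatrix (cmat w) := by
  induction w with
  | nil => simp [up, cmat]
  | cons a w ih =>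
    rw [cmat_cons, map_mul, ← ih]
    have h1 : up q (a :: w) = um q a * up q w := by simp [up]
    rw [h1, Units.val_mul]
    congr 1
    ext i j
    fin_cases i <;> fin_cases j <;> simp [um]

theorem word_append {v w : List ℤ} (hv : Word12 v) (hw : Word12 w) : Word12 (v ++ w) := by
  intro a ha
  rcases List.mem_append.mp ha with h | h
  · exact hv a h
  · exact hw a h

/-- The subgroup of all units represented by words over `{1,2}`. -/
def H (q : ℕ) [NeZero q] : Subgroup (Matrix (Fin 2) (Fin 2) (ZMod q))ˣ where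
  carrier := {g | ∃ w, Word12 w ∧ up q w = g}
  one_mem' := ⟨[], by intro a ha; simp at ha, by simp [up]⟩
  mul_mem' := by
    rintro g h ⟨v, hv, rfl⟩ ⟨w, hw, rfl⟩
    exact ⟨v ++ w, word_append hv hw, up_append q v w⟩
  inv_mem' := by
    rintro g ⟨w, hw, rfl⟩
    have hpow : ∀ k : ℕ, ∃ v, Word12 v ∧ up q v = (up q w) ^ k := by
      intro k
      induction k with
      | zero => exact ⟨[], by intro a ha; simp at ha, by simp [up]⟩
      | succ k ih =>
        obtain ⟨v, hv, hv'⟩ := ih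
        exact ⟨v ++ w, word_append hv hw, by rw [up_append, hv', pow_succ]⟩
    obtain ⟨v, hv, hv'⟩ := hpow (orderOf (up q w) - 1)
    refine ⟨v, hv, ?_⟩
    rw [hv']
    have hpos : 0 < orderOf (up q w) := orderOf_pos _
    rw [eq_comm, inv_eq_iff_mul_eq_one, ← pow_succ']
    rw [Nat.sub_add_cancel hpos]
    exact pow_orderOf_eq_one _

theorem um_mem (q : ℕ) [NeZero q] (a : ℤ) (ha : a = 1 ∨ a = 2) : um q a ∈ H q :=
  ⟨[a], by intro b hb; rw [List.mem_singleton] at hb; rw [hb]; exact ha, by simp [up]⟩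

theorem upow (q : ℕ) (k : ℕ) :
    (((um q 2 * (um q 1)⁻¹) ^ k : (Matrix (Fin 2) (Fin 2) (ZMod q))ˣ) :
      Matrix (Fin 2) (Fin 2) (ZMod q)) = !![1, (k : ZMod q); 0, 1] := by
  induction k with
  | zero =>
    ext i j
    fin_cases i <;> fin_cases j <;> simp
  | succ k ih =>
    rw [pow_succ, Units.val_mul, ih, Units.val_mul]
    ext i j
    fin_cases i <;> fin_cases j <;>
      simp [um, Units.inv_mk, Matrix.mul_apply, Fin.sum_univ_two]
    all_goals try ring

/-- Every matrix with rows (0, 1) and (1, k) is represented. -/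
theorem tk_mem (q : ℕ) [NeZero q] (k : ℕ) :
    ∃ g ∈ H q, ((g : (Matrix (Fin 2) (Fin 2) (ZMod q))ˣ) : Matrix (Fin 2) (Fin 2) (ZMod q))
      = !![0, 1; 1, (k : ZMod q)] := by
  set U := um q 2 * (um q 1)⁻¹ with hU
  have hUm : U ∈ H q := (H q).mul_mem (um_mem q 2 (Or.inr rfl))
    ((H q).inv_mem (um_mem q 1 (Or.inl rfl)))
  refine ⟨U⁻¹ * um q 1 * U ^ k, (H q).mul_mem ((H q).mul_mem ((H q).inv_mem hUm)
    (um_mem q 1 (Or.inl rfl))) ((H q).pow_mem hUm k), ?_⟩
  rw [Units.val_mul, upow]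
  have h1 : ((U⁻¹ * um q 1 : (Matrix (Fin 2) (Fin 2) (ZMod q))ˣ) :
      Matrix (Fin 2) (Fin 2) (ZMod q)) = !![0, 1; 1, 0] := by
    have h2 : U⁻¹ * um q 1 = um q 1 * (um q 2)⁻¹ * um q 1 := by
      rw [hU]; group
    rw [h2, Units.val_mul, Units.val_mul]
    ext i j
    fin_cases i <;> fin_cases j <;>
      simp [um, Units.inv_mk, Matrix.mul_apply, Fin.sum_univ_two]
    all_goals try ring
  rw [h1]
  ext i j
  fin_cases i <;> fin_cases j <;> simp [Matrix.mul_apply, Fin.sum_univ_two]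

/-- Every represented matrix is represented by a long word that ends in 2. -/
theorem long_word (q : ℕ) [NeZero q] (g : (Matrix (Fin 2) (Fin 2) (ZMod q))ˣ) (hg : g ∈ H q)
    (N : ℕ) : ∃ c : List ℤ, Word12 c ∧ c.getLast? = some 2 ∧ N ≤ c.length ∧ up q c = g := by
  obtain ⟨w, hw, hw'⟩ := (H q).mul_mem hg ((H q).inv_mem (um_mem q 2 (Or.inr rfl)))
  have hrep : ∀ k : ℕ, up q (List.replicate k 1) = (um q 1) ^ k := by
    intro k; simp [up]
  have hpos : 0 < orderOf (um q 1) := orderOf_pos _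
  refine ⟨List.replicate (orderOf (um q 1) * N) 1 ++ (w ++ [2]), ?_, ?_, ?_, ?_⟩
  · apply word_append
    · intro a ha; left; exact (List.mem_replicate.mp ha).2
    · apply word_append hw
      intro a ha; right; exact List.mem_singleton.mp ha
  · simp
  · simp only [List.length_append, List.length_replicate]
    nlinarith
  · rw [up_append, hrep, pow_mul, pow_orderOf_eq_one, one_pow, one_mul, up_append, hw']
    simp [up]

theorem entry00 {R : Type} [CommRing R] (k : R) (Y Z : Matrix (Fin 2) (Fin 2) R) :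
    ((!![0, 1; 1, k])ᵀ * Y * (!![0, 1; 1, k] * Z)) 0 0
      = Y 1 0 * Z 1 0 + Y 1 1 * (Z 0 0 + k * Z 1 0) := by
  simp only [Matrix.mul_apply, Fin.sum_univ_two, Matrix.transpose_apply, Matrix.of_apply,
    Matrix.cons_val_zero, Matrix.cons_val_one, Matrix.cons_val', Matrix.cons_val_fin_one]
  ring

theorem word_reverse {w : List ℤ} (hw : Word12 w) : Word12 w.reverse :=
  fun a ha => hw a (List.mem_reverse.mp ha)

theorem lt_of_end (v : List ℤ) (hv : Word12 v) (h2 : v = [] ∨ v.getLast? = some 2) :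
    cmat v 1 0 < cmat v 0 0 := by
  rcases v with _ | ⟨a, v⟩
  · simp [cmat]
  · obtain ⟨e1, e2⟩ := entries_cons a v
    have hv' : Word12 v := fun b hb => hv b (List.mem_cons_of_mem _ hb)
    obtain ⟨g1, g2, g3, _⟩ := growth v hv'
    rw [e1, e2]
    rcases v with _ | ⟨b, v⟩
    · rcases h2 with h | h
      · simp at h
      · simp at h
        subst h
        simp [cmat]
    · have := g3 (by simp)
      have ha : 1 ≤ a := by
        rcases hv a (List.mem_cons_self) with h | h <;> omega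
      nlinarith

theorem col_inj (w : List ℤ) : ∀ w' : List ℤ, Word12 w → Word12 w' →
    (w = [] ∨ w.getLast? = some 2) → (w' = [] ∨ w'.getLast? = some 2) →
    cmat w 0 0 = cmat w' 0 0 → cmat w 1 0 = cmat w' 1 0 → w = w' := by
  induction w with
  | nil =>
    intro w' _ hw' _ _ _ h
    rcases w' with _ | ⟨b, w'⟩
    · rfl
    · exfalso
      have := (growth (b :: w') hw').2.2.1 (by simp)
      rw [← h] at this
      simp [cmat] at this
  | cons a v ih =>
    intro w' hw hw' h2 h2' e0 e1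
    rcases w' with _ | ⟨b, v'⟩
    · exfalso
      have := (growth (a :: v) hw).2.2.1 (by simp)
      rw [e1] at this
      simp [cmat] at this
    · have hv : Word12 v := fun b hb => hw b (List.mem_cons_of_mem _ hb)
      have hv' : Word12 v' := fun b hb => hw' b (List.mem_cons_of_mem _ hb)
      have tail : ∀ (a : ℤ) (v : List ℤ), ((a :: v) = [] ∨ (a :: v).getLast? = some 2) →
          (v = [] ∨ v.getLast? = some 2) := by
        intro a v h
        rcases v with _ | ⟨c, v⟩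
        · left; rfl
        · right
          rcases h with h | h
          · simp at h
          · simpa using h
      have t1 := tail a v h2
      have t2 := tail b v' h2'
      rw [(entries_cons a v).1, (entries_cons b v').1] at e0
      rw [(entries_cons a v).2, (entries_cons b v').2] at e1
      have l1 := lt_of_end v hv t1
      have l2 := lt_of_end v' hv' t2
      have p1 := (growth v hv).2.1
      have p2 := (growth v' hv').2.1
      have p3 := (growth v hv).1
      rw [← e1] at e0 l2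
      have hab : a = b := by
        rcases lt_trichotomy a b with h | h | h
        · exfalso; nlinarith
        · exact h
        · exfalso; nlinarith
      subst hab
      have e2 : cmat v 1 0 = cmat v' 1 0 := by linarith
      rw [ih v' hv hv' t1 t2 e1 e2]

/-- The sum of the entries. -/
def nrm (w : List ℤ) : ℤ := cmat w 0 0 + cmat w 0 1 + cmat w 1 0 + cmat w 1 1

theorem ent01 (w : List ℤ) : cmat w 0 1 = cmat w.reverse 1 0 := by
  rw [cmat_reverse]; rfl

theorem ent_le (w : List ℤ) (hw : Word12 w) : cmat w 1 0 ≤ cmat w 0 0 := by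
  rcases w with _ | ⟨a, v⟩
  · simp [cmat]
  · obtain ⟨e1, e2⟩ := entries_cons a v
    have hv' : Word12 v := fun b hb => hw b (List.mem_cons_of_mem _ hb)
    obtain ⟨g1, g2, g3, _⟩ := growth v hv'
    have ha : 1 ≤ a := by
      rcases hw a (List.mem_cons_self) with h | h <;> omega
    rw [e1, e2]
    nlinarith

theorem ent01_bd (w : List ℤ) (hw : Word12 w) : 0 ≤ cmat w 0 1 ∧ cmat w 0 1 ≤ cmat w 0 0 := by
  have e0 : cmat w 0 0 = cmat w.reverse 0 0 := by rw [cmat_reverse]; rfl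
  rw [ent01, e0]
  exact ⟨(growth _ (word_reverse hw)).2.1, ent_le _ (word_reverse hw)⟩

theorem ent11_bd (w : List ℤ) (hw : Word12 w) : 0 ≤ cmat w 1 1 ∧ cmat w 1 1 ≤ cmat w 0 0 := by
  rcases w with _ | ⟨a, v⟩
  · simp [cmat]
  · have hv' : Word12 v := fun b hb => hw b (List.mem_cons_of_mem _ hb)
    have e : cmat (a :: v) 1 1 = cmat v 0 1 := by
      rw [cmat_cons]; simp [Matrix.mul_apply, Fin.sum_univ_two]
    obtain ⟨h1, h2⟩ := ent01_bd v hv'
    have h3 := ent_le (a :: v) hw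
    rw [(entries_cons a v).2] at h3
    rw [e]
    exact ⟨h1, h2.trans h3⟩

theorem nrm_bd (w : List ℤ) (hw : Word12 w) : cmat w 0 0 ≤ nrm w ∧ nrm w ≤ 4 * cmat w 0 0 := by
  have h1 := ent01_bd w hw
  have h2 := ent11_bd w hw
  have h3 := ent_le w hw
  have h4 := (growth w hw).2.1
  unfold nrm
  constructor <;> linarith

theorem nrm_pos (w : List ℤ) (hw : Word12 w) : 1 ≤ nrm w :=
  (growth w hw).1.trans (nrm_bd w hw).1

theorem nrm_append (v w : List ℤ) (hv : Word12 v) (hw : Word12 w) :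
    nrm (v ++ w) ≤ nrm v * nrm w := by
  have a1 := ent01_bd v hv
  have a2 := ent11_bd v hv
  have a3 := (growth v hv).2.1
  have a4 := (growth v hv).1
  have b1 := ent01_bd w hw
  have b2 := ent11_bd w hw
  have b3 := (growth w hw).2.1
  have b4 := (growth w hw).1
  unfold nrm
  rw [cmat_append]
  simp only [Matrix.mul_apply, Fin.sum_univ_two]
  have m1 := mul_nonneg (show 0 ≤ cmat v 0 0 by linarith) b3
  have m2 := mul_nonneg (show 0 ≤ cmat v 0 0 by linarith) b2.1
  have m3 := mul_nonneg a1.1 (show 0 ≤ cmat w 0 0 by linarith)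
  have m4 := mul_nonneg a1.1 b1.1
  have m5 := mul_nonneg a3 b3
  have m6 := mul_nonneg a3 b2.1
  have m7 := mul_nonneg a2.1 (show 0 ≤ cmat w 0 0 by linarith)
  have m8 := mul_nonneg a2.1 b1.1
  nlinarith

theorem nrm_reverse (w : List ℤ) : nrm w.reverse = nrm w := by
  unfold nrm
  rw [cmat_reverse]
  simp only [Matrix.transpose_apply]
  ring

/-- Data attached to `c`. -/
theorem data (X u v c : List ℤ) (hdet : (cmat (c ++ u)).det = -1) :
    cmat ((c ++ u).reverse ++ X ++ (c ++ u)) 1 0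
      = cmat ((c ++ u).reverse ++ X ++ (c ++ u)) 0 1 + (cmat X 0 1 - cmat X 1 0) ∧
    cmat ((c ++ u).reverse ++ X ++ (c ++ v)) 0 0
      = cmat ((c ++ u).reverse ++ X ++ (c ++ u)) 0 0 * (((cmat u).det • (cmat u).adjugate) * cmat v) 0 0
        + cmat ((c ++ u).reverse ++ X ++ (c ++ u)) 0 1
          * ((cmat u).det * (cmat u 0 0 * cmat v 1 0 - cmat u 1 0 * cmat v 0 0)) ∧
    cmat ((c ++ u).reverse ++ X ++ (c ++ u)) 0 0 * cmat ((c ++ u).reverse ++ X ++ (c ++ u)) 1 1
      - cmat ((c ++ u).reverse ++ X ++ (c ++ u)) 0 1 * cmat ((c ++ u).reverse ++ X ++ (c ++ u)) 1 0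
      = (cmat X).det := by
  have hδ2 : (cmat u).det * (cmat u).det = 1 := by
    rcases det_cmat u with h | h <;> rw [h] <;> norm_num
  refine ⟨?_, ?_, ?_⟩
  · rw [cmat_append, cmat_append, cmat_reverse]
    rw [Matrix.det_fin_two] at hdet
    simp only [Matrix.mul_apply, Fin.sum_univ_two, Matrix.transpose_apply]
    linear_combination (cmat X 1 0 - cmat X 0 1) * hdet
  · have hNv' : cmat u * (((cmat u).det • (cmat u).adjugate) * cmat v) = cmat v := by
      rw [Matrix.smul_mul, Matrix.mul_smul, ← Matrix.mul_assoc, Matrix.mul_adjugate,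
        Matrix.smul_mul, Matrix.one_mul, smul_smul, hδ2, one_smul]
    have h1 : cmat ((c ++ u).reverse ++ X ++ (c ++ v))
        = cmat ((c ++ u).reverse ++ X ++ (c ++ u)) * (((cmat u).det • (cmat u).adjugate) * cmat v) := by
      rw [cmat_append, cmat_append _ (c ++ u), Matrix.mul_assoc, cmat_append c u, Matrix.mul_assoc,
        hNv', ← cmat_append c v]
    have h2 : (((cmat u).det • (cmat u).adjugate) * cmat v) 1 0
        = (cmat u).det * (cmat u 0 0 * cmat v 1 0 - cmat u 1 0 * cmat v 0 0) := by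
      rw [Matrix.smul_mul, Matrix.smul_apply, Matrix.adjugate_fin_two]
      simp [Matrix.mul_apply, Fin.sum_univ_two]
      left; ring
    rw [h1, Matrix.mul_apply, Fin.sum_univ_two, h2]
  · rw [← Matrix.det_fin_two, cmat_append, cmat_append, cmat_reverse, Matrix.det_mul,
      Matrix.det_mul, Matrix.det_transpose, hdet]
    ring

/-- A divisor bound. -/
theorem divisor_bound (t : ℕ) (ht : 1 ≤ t) :
    ∃ C : ℕ, 0 < C ∧ ∀ k : ℕ, k ≠ 0 → k.divisors.card ^ t ≤ C * k := by
  obtain ⟨D, hD1, hD⟩ : ∃ D : ℕ, 1 ≤ D ∧ ∀ a : ℕ, (a + 1) ^ t ≤ D * 2 ^ a := by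
    refine ⟨t ^ t * 2 ^ (t + 1), Nat.one_le_iff_ne_zero.mpr (by positivity), fun a => ?_⟩
    have h1 : a + 1 ≤ t * 2 ^ ((a + 1) / t + 1) := by
      have h2 : a + 1 < t * ((a + 1) / t + 1) := Nat.lt_mul_div_succ (a + 1) (by omega)
      have h3 : (a + 1) / t + 1 < 2 ^ ((a + 1) / t + 1) := Nat.lt_two_pow_self
      exact h2.le.trans (Nat.mul_le_mul_left t h3.le)
    have h4 : ((a + 1) / t + 1) * t ≤ a + 1 + t := by
      have := Nat.div_mul_le_self (a + 1) t
      rw [add_mul, one_mul]; omega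
    calc (a + 1) ^ t ≤ (t * 2 ^ ((a + 1) / t + 1)) ^ t := Nat.pow_le_pow_left h1 t
      _ = t ^ t * 2 ^ (((a + 1) / t + 1) * t) := by rw [mul_pow, ← pow_mul]
      _ ≤ t ^ t * 2 ^ (a + 1 + t) := Nat.mul_le_mul_left _ (Nat.pow_le_pow_right (by norm_num) h4)
      _ = t ^ t * 2 ^ (t + 1) * 2 ^ a := by
        rw [pow_add 2 (a + 1) t, pow_add 2 a 1, pow_add 2 t 1]; ring
  refine ⟨D ^ (2 ^ t), by positivity, fun k hk => ?_⟩
  rw [Nat.card_divisors hk, ← Finset.prod_pow]
  have h1 : ∀ p ∈ k.primeFactors, (k.factorization p + 1) ^ t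
      ≤ (if p < 2 ^ t then D else 1) * p ^ (k.factorization p) := by
    intro p hp
    have hp2 : 2 ≤ p := (Nat.prime_of_mem_primeFactors hp).two_le
    split_ifs with h
    · exact (hD _).trans (Nat.mul_le_mul_left _ (Nat.pow_le_pow_left hp2 _))
    · push Not at h
      rw [one_mul]
      calc (k.factorization p + 1) ^ t ≤ (2 ^ (k.factorization p)) ^ t :=
            Nat.pow_le_pow_left Nat.lt_two_pow_self t
        _ = (2 ^ t) ^ (k.factorization p) := by rw [← pow_mul, ← pow_mul, mul_comm]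
        _ ≤ p ^ _ := Nat.pow_le_pow_left h _
  refine (Finset.prod_le_prod' h1).trans ?_
  rw [Finset.prod_mul_distrib]
  have h2 : ∏ p ∈ k.primeFactors, p ^ k.factorization p = k := Nat.prod_factorization_pow_eq_self hk
  rw [h2]
  refine Nat.mul_le_mul_right k ?_
  rw [Finset.prod_ite, Finset.prod_const, Finset.prod_const_one, mul_one]
  refine Nat.pow_le_pow_right (by omega) ?_
  calc (k.primeFactors.filter (fun p => p < 2 ^ t)).card ≤ (Finset.range (2 ^ t)).card := by
        apply Finset.card_le_card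
        intro p hp
        rw [Finset.mem_filter] at hp
        exact Finset.mem_range.mpr hp.2
    _ = 2 ^ t := Finset.card_range _

theorem pow_bound (y y0 b : ℝ) (hy : 0 < y) (hy0 : 0 < y0) (hb : 0 < b) (h : y0 ^ 2 ≤ b ^ 33) :
    y ^ (2 / 33 : ℝ) ≤ b * (1 + 2 / 33 * (y / y0 - 1)) := by
  have h1 : y0 ^ (2 / 33 : ℝ) ≤ b := by
    have h2 : (y0 ^ 2) ^ (1 / 33 : ℝ) ≤ (b ^ 33) ^ (1 / 33 : ℝ) :=
      Real.rpow_le_rpow (by positivity) h (by norm_num)
    rw [← Real.rpow_natCast y0 2, ← Real.rpow_natCast b 33, ← Real.rpow_mul hy0.le,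
      ← Real.rpow_mul hb.le] at h2
    norm_num at h2
    exact h2
  have h3 : y = y0 * (1 + (y / y0 - 1)) := by field_simp; ring
  have hpos : 0 < y / y0 := div_pos hy hy0
  have h4 : (1 + (y / y0 - 1)) ^ (2 / 33 : ℝ) ≤ 1 + 2 / 33 * (y / y0 - 1) :=
    rpow_one_add_le_one_add_mul_self (by linarith) (by norm_num) (by norm_num)
  calc y ^ (2 / 33 : ℝ) = y0 ^ (2 / 33 : ℝ) * (1 + (y / y0 - 1)) ^ (2 / 33 : ℝ) := by
        rw [← Real.mul_rpow hy0.le (by linarith), ← h3]
    _ ≤ b * (1 + 2 / 33 * (y / y0 - 1)) :=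
        mul_le_mul h1 h4 (Real.rpow_nonneg (by linarith) _) hb.le

theorem poly_ineq (x : ℝ) (h1 : 9 / 25 ≤ x) (h2 : x ≤ 37 / 50) :
    1 / (171 / 100 + x) ≤
      1 / ((271 / 100 + 171 / 100 * x) * (1242667 / 1237500 + 12811 / 309375 * x))
      + 1 / ((442 / 100 + 171 / 100 * x) * (5743631 / 5500000 + 35237 / 1375000 * x)) := by
  have e : (171 / 100 + x) * ((271 / 100 + 171 / 100 * x) * (1242667 / 1237500 + 12811 / 309375 * x)
      + (442 / 100 + 171 / 100 * x) * (5743631 / 5500000 + 35237 / 1375000 * x))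
      - (271 / 100 + 171 / 100 * x) * (1242667 / 1237500 + 12811 / 309375 * x)
        * ((442 / 100 + 171 / 100 * x) * (5743631 / 5500000 + 35237 / 1375000 * x))
      = 233732883151905341969/277186658203125000000 * (37/50 - x)^4 + 5043252500642883732761/1108746632812500000000 * (x - 9/25) * (37/50 - x)^3 + 17410969268073555630497/2217493265625000000000 * (x - 9/25)^2 * (37/50 - x)^2 + 2858057253417537857483/554373316406250000000 * (x - 9/25)^3 * (37/50 - x) + 67606688756068226009/67196765625000000000 * (x - 9/25)^4 := by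
    ring
  have p1 : 0 ≤ x - 9 / 25 := by linarith
  have p2 : 0 ≤ 37 / 50 - x := by linarith
  have hx : 0 < x := by linarith
  have e2 : 0 ≤ (171 / 100 + x) * ((271 / 100 + 171 / 100 * x) * (1242667 / 1237500 + 12811 / 309375 * x)
      + (442 / 100 + 171 / 100 * x) * (5743631 / 5500000 + 35237 / 1375000 * x))
      - (271 / 100 + 171 / 100 * x) * (1242667 / 1237500 + 12811 / 309375 * x)
        * ((442 / 100 + 171 / 100 * x) * (5743631 / 5500000 + 35237 / 1375000 * x)) := by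
    rw [e]; positivity
  have d1 : 0 < (271 / 100 + 171 / 100 * x) * (1242667 / 1237500 + 12811 / 309375 * x) := by
    positivity
  have d2 : 0 < (442 / 100 + 171 / 100 * x) * (5743631 / 5500000 + 35237 / 1375000 * x) := by
    positivity
  rw [div_add_div _ _ d1.ne' d2.ne', div_le_div_iff₀ (by positivity) (by positivity)]
  linarith

theorem step_bound (a x X b y0 : ℝ) (ha : 1 ≤ a) (hx : 0 < x) (hX : 0 < X) (hb : 0 < b)
    (hy0 : 0 < y0) (h : y0 ^ 2 ≤ b ^ 33) :
    X ^ (35 / 33 : ℝ) * (1 / ((1 + 171 / 100 * (a + x)) * (b * (1 + 2 / 33 * ((a + x) / y0 - 1)))))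
      ≤ (X / (a + x)) ^ (35 / 33 : ℝ) / (171 / 100 + 1 / (a + x)) := by
  have hy : 0 < a + x := by linarith
  have h1 : (a + x) ^ (35 / 33 : ℝ) ≤ (a + x) * (b * (1 + 2 / 33 * ((a + x) / y0 - 1))) := by
    have : (35 / 33 : ℝ) = 1 + 2 / 33 := by norm_num
    rw [this, Real.rpow_add hy, Real.rpow_one]
    exact mul_le_mul_of_nonneg_left (pow_bound _ _ _ hy hy0 hb h) hy.le
  rw [Real.div_rpow hX.le hy.le, div_div, ← mul_one_div (X ^ (35 / 33 : ℝ)) _]
  refine mul_le_mul_of_nonneg_left ?_ (Real.rpow_nonneg hX.le _)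
  have h2 : (171 / 100 + 1 / (a + x)) = (1 + 171 / 100 * (a + x)) / (a + x) := by
    field_simp; ring
  have hpw : 0 < (a + x) ^ (35 / 33 : ℝ) := Real.rpow_pos_of_pos hy _
  rw [h2]
  apply one_div_le_one_div_of_le
  · positivity
  · calc (a + x) ^ (35 / 33 : ℝ) * ((1 + 171 / 100 * (a + x)) / (a + x))
        ≤ ((a + x) * (b * (1 + 2 / 33 * ((a + x) / y0 - 1)))) * ((1 + 171 / 100 * (a + x)) / (a + x)) :=
          mul_le_mul_of_nonneg_right h1 (by positivity)
      _ = (1 + 171 / 100 * (a + x)) * (b * (1 + 2 / 33 * ((a + x) / y0 - 1))) := by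
          field_simp

theorem count_aux (n : ℕ) : ∀ x X : ℝ, 9 / 25 ≤ x → x ≤ 37 / 50 → 1 ≤ X → X ≤ 3 * (4 / 3) ^ n →
    ∃ F : Finset (List ℤ), (∀ w ∈ F, Word12 w ∧ (cmat w 0 0 : ℝ) + x * cmat w 1 0 ≤ X) ∧
      1 / 9 * (X ^ (35 / 33 : ℝ) / (171 / 100 + x)) ≤ F.card := by
  have base : ∀ x X : ℝ, 9 / 25 ≤ x → x ≤ 37 / 50 → 1 ≤ X → X ≤ 3 →
      ∃ F : Finset (List ℤ), (∀ w ∈ F, Word12 w ∧ (cmat w 0 0 : ℝ) + x * cmat w 1 0 ≤ X) ∧
      1 / 9 * (X ^ (35 / 33 : ℝ) / (171 / 100 + x)) ≤ F.card := by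
    intro x X h1 h2 h3 h4
    refine ⟨{[]}, ?_, ?_⟩
    · intro w hw
      rw [Finset.mem_singleton] at hw
      subst hw
      refine ⟨by intro a ha; simp at ha, ?_⟩
      simp [cmat]; linarith
    · have h5 : X ^ (35 / 33 : ℝ) ≤ X ^ (2 : ℝ) :=
        Real.rpow_le_rpow_of_exponent_le h3 (by norm_num)
      have h6 : X ^ (2 : ℝ) ≤ 9 := by
        rw [Real.rpow_two]; nlinarith
      have h7 : X ^ (35 / 33 : ℝ) / (171 / 100 + x) ≤ 9 := by
        rw [div_le_iff₀ (by linarith)]; linarith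
      simp only [Finset.card_singleton]
      push_cast
      linarith
  induction n with
  | zero =>
    intro x X h1 h2 h3 h4
    exact base x X h1 h2 h3 (by simpa using h4)
  | succ n ih =>
    intro x X h1 h2 h3 h4
    rcases le_or_gt X 3 with h | h
    · exact base x X h1 h2 h3 h
    have hx0 : 0 < x := by linarith
    have y1 : 0 < 1 + x := by linarith
    have y2 : 0 < 2 + x := by linarith
    have q1 : 1 ≤ X / (1 + x) := by rw [le_div_iff₀ y1]; linarith
    have q2 : 1 ≤ X / (2 + x) := by rw [le_div_iff₀ y2]; linarith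
    have hpn : X ≤ 3 * (4 / 3) ^ n * (4 / 3) := by rw [pow_succ] at h4; linarith
    have hpos : (0 : ℝ) < 3 * (4 / 3) ^ n := by positivity
    have r1 : X / (1 + x) ≤ 3 * (4 / 3) ^ n := by
      rw [div_le_iff₀ y1]; nlinarith
    have r2 : X / (2 + x) ≤ 3 * (4 / 3) ^ n := by
      rw [div_le_iff₀ y2]; nlinarith
    obtain ⟨F1, hF1, hc1⟩ := ih (1 / (1 + x)) (X / (1 + x))
      (by rw [le_div_iff₀ y1]; linarith) (by rw [div_le_iff₀ y1]; linarith) q1 r1
    obtain ⟨F2, hF2, hc2⟩ := ih (1 / (2 + x)) (X / (2 + x))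
      (by rw [le_div_iff₀ y2]; linarith) (by rw [div_le_iff₀ y2]; linarith) q2 r2
    refine ⟨F1.map ⟨List.cons 1, List.cons_injective⟩ ∪ F2.map ⟨List.cons 2, List.cons_injective⟩,
      ?_, ?_⟩
    · intro w hw
      rw [Finset.mem_union, Finset.mem_map, Finset.mem_map] at hw
      rcases hw with ⟨v, hv, rfl⟩ | ⟨v, hv, rfl⟩
      · obtain ⟨hv1, hv2⟩ := hF1 v hv
        refine ⟨?_, ?_⟩
        · intro a ha
          simp only [Function.Embedding.coeFn_mk, List.mem_cons] at ha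
          rcases ha with ha | ha
          · left; exact ha
          · exact hv1 a ha
        · simp only [Function.Embedding.coeFn_mk]
          rw [(entries_cons 1 v).1, (entries_cons 1 v).2]
          push_cast
          rw [le_div_iff₀ y1] at hv2
          have e : ((cmat v 0 0 : ℝ) + 1 / (1 + x) * cmat v 1 0) * (1 + x)
              = 1 * (cmat v 0 0 : ℝ) + cmat v 1 0 + x * cmat v 0 0 := by
            field_simp
            ring
          rw [e] at hv2; exact hv2
      · obtain ⟨hv1, hv2⟩ := hF2 v hv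
        refine ⟨?_, ?_⟩
        · intro a ha
          simp only [Function.Embedding.coeFn_mk, List.mem_cons] at ha
          rcases ha with ha | ha
          · right; exact ha
          · exact hv1 a ha
        · simp only [Function.Embedding.coeFn_mk]
          rw [(entries_cons 2 v).1, (entries_cons 2 v).2]
          push_cast
          rw [le_div_iff₀ y2] at hv2
          have e : ((cmat v 0 0 : ℝ) + 1 / (2 + x) * cmat v 1 0) * (2 + x)
              = 2 * (cmat v 0 0 : ℝ) + cmat v 1 0 + x * cmat v 0 0 := by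
            field_simp
            ring
          rw [e] at hv2; exact hv2
    · rw [Finset.card_union_of_disjoint, Finset.card_map, Finset.card_map]
      · push_cast
        have s1 := step_bound 1 x X (12811 / 12500) (3 / 2) (by norm_num) hx0 (by linarith)
          (by norm_num) (by norm_num) (by norm_num)
        have s2 := step_bound 2 x X (105711 / 100000) (5 / 2) (by norm_num) hx0 (by linarith)
          (by norm_num) (by norm_num) (by norm_num)
        have hP := poly_ineq x h1 h2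
        have hXp : 0 ≤ X ^ (35 / 33 : ℝ) := Real.rpow_nonneg (by linarith) _
        have e1 : (1 + 171 / 100 * (1 + x)) * (12811 / 12500 * (1 + 2 / 33 * ((1 + x) / (3 / 2) - 1)))
            = (271 / 100 + 171 / 100 * x) * (1242667 / 1237500 + 12811 / 309375 * x) := by ring
        have e2 : (1 + 171 / 100 * (2 + x)) * (105711 / 100000 * (1 + 2 / 33 * ((2 + x) / (5 / 2) - 1)))
            = (442 / 100 + 171 / 100 * x) * (5743631 / 5500000 + 35237 / 1375000 * x) := by ring
        rw [e1] at s1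
        rw [e2] at s2
        have h5 : X ^ (35 / 33 : ℝ) / (171 / 100 + x) ≤
            (X / (1 + x)) ^ (35 / 33 : ℝ) / (171 / 100 + 1 / (1 + x))
            + (X / (2 + x)) ^ (35 / 33 : ℝ) / (171 / 100 + 1 / (2 + x)) := by
          rw [← mul_one_div (X ^ (35 / 33 : ℝ)) _]
          refine (mul_le_mul_of_nonneg_left hP hXp).trans ?_
          rw [mul_add]
          exact add_le_add s1 s2
        linarith
      · rw [Finset.disjoint_left]
        intro w hw1 hw2
        rw [Finset.mem_map] at hw1 hw2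
        obtain ⟨v1, _, hv1⟩ := hw1
        obtain ⟨v2, _, hv2⟩ := hw2
        simp only [Function.Embedding.coeFn_mk] at hv1 hv2
        rw [← hv2] at hv1
        have := (List.cons_eq_cons.mp hv1).1
        norm_num at this

theorem extend (q : ℕ) [NeZero q] (hq : 3 ≤ q) (u : List ℤ) (hu : Word12 u) (k N : ℕ) :
    ∃ f : (Matrix (Fin 2) (Fin 2) (ZMod q))ˣ → List ℤ, ∀ c : List ℤ, Word12 c →
      Word12 (f (up q c)) ∧ (c ++ f (up q c)).getLast? = some 2 ∧
      N ≤ (c ++ f (up q c)).length ∧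
      (Int.castRingHom (ZMod q)).mapMatrix (cmat (c ++ f (up q c) ++ u))
        = !![0, 1; 1, (k : ZMod q)] ∧
      (cmat (c ++ f (up q c) ++ u)).det = -1 := by
  obtain ⟨g, hg, hgv⟩ := tk_mem q k
  have hum : up q u ∈ H q := ⟨u, hu, rfl⟩
  have hex : ∀ γ : (Matrix (Fin 2) (Fin 2) (ZMod q))ˣ, ∃ c : List ℤ, γ ∈ H q →
      (Word12 c ∧ c.getLast? = some 2 ∧ N ≤ c.length ∧ up q c = γ⁻¹ * g * (up q u)⁻¹) := by
    intro γ
    by_cases h : γ ∈ H q
    · obtain ⟨c, hc⟩ := long_word q (γ⁻¹ * g * (up q u)⁻¹)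
        ((H q).mul_mem ((H q).mul_mem ((H q).inv_mem h) hg) ((H q).inv_mem hum)) N
      exact ⟨c, fun _ => hc⟩
    · exact ⟨[], fun h' => absurd h' h⟩
  choose f hf using hex
  refine ⟨f, fun c hc => ?_⟩
  obtain ⟨hw, h2, hN, hup⟩ := hf (up q c) ⟨c, hc, rfl⟩
  have h1 : (Int.castRingHom (ZMod q)).mapMatrix (cmat (c ++ f (up q c) ++ u))
      = !![0, 1; 1, (k : ZMod q)] := by
    rw [← up_val, up_append, up_append, hup, ← hgv]
    congr 1
    group
  refine ⟨hw, ?_, ?_, h1, ?_⟩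
  · rw [List.getLast?_append, h2]; rfl
  · rw [List.length_append]; omega
  · rcases det_cmat (c ++ f (up q c) ++ u) with h | h
    · exfalso
      have h3 := congrArg Matrix.det h1
      rw [← RingHom.map_det, h, Matrix.det_fin_two] at h3
      simp at h3
      have h4 : ((2 : ℕ) : ZMod q) = 0 := by
        push_cast
        linear_combination h3
      rw [ZMod.natCast_eq_zero_iff] at h4
      have := Nat.le_of_dvd (by norm_num) h4
      omega
    · exact h

/-- The first of the two continuants. -/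
def P (X u v c : List ℤ) : ℤ := cmat ((c ++ u).reverse ++ X ++ (c ++ v)) 0 0

theorem core (X u v : List ℤ) (hX : Word12 X) (hu : Word12 u) (hv : Word12 v)
    (hu2 : u = [] ∨ u.getLast? = some 2) (hv2 : v = [] ∨ v.getLast? = some 2)
    (m : ℕ) (hm : 0 < m)
    (hcop : IsCoprime (cmat X 1 1 * (cmat u 0 0 * cmat v 1 0 - cmat u 1 0 * cmat v 0 0)) (m : ℤ))
    (r B : ℤ) :
    ∃ k : ℕ, ∃ σ : ℤ, ∀ c : List ℤ, Word12 c → c.getLast? = some 2 → B.toNat + 1 ≤ c.length →
      (Int.castRingHom (ZMod (3 * m))).mapMatrix (cmat (c ++ u))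
        = !![0, 1; 1, (k : ZMod (3 * m))] →
      (cmat (c ++ u)).det = -1 →
      B < P X u v c ∧ B < P X u v c - σ ∧ P X u v c - σ ≡ r [ZMOD m] ∧
      Admissible (P X u v c - σ) ∧
      Admissible (P X u v c - σ + |cmat X 0 1 - cmat X 1 0|
        * |cmat u 0 0 * cmat v 1 0 - cmat u 1 0 * cmat v 0 0|) := by
  obtain ⟨q, hqdef⟩ : ∃ q : ℕ, q = 3 * m := ⟨_, rfl⟩
  rw [← hqdef]
  have hqz : NeZero q := ⟨by omega⟩
  have hq3 : 3 ≤ q := by omega
  -- the integer data
  obtain ⟨δ, hδdef⟩ : ∃ δ : ℤ, δ = (cmat u).det := ⟨_, rfl⟩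
  have hδ : δ = 1 ∨ δ = -1 := by rw [hδdef]; exact det_cmat u
  have hδ2 : δ * δ = 1 := by rcases hδ with h | h <;> rw [h] <;> norm_num
  have hdetu : cmat u 0 0 * cmat u 1 1 - cmat u 0 1 * cmat u 1 0 = δ := by
    rw [hδdef, Matrix.det_fin_two]
  set g := cmat X 0 1 - cmat X 1 0 with hg
  set e := cmat u 0 0 * cmat v 1 0 - cmat u 1 0 * cmat v 0 0 with he
  set Nv : Matrix (Fin 2) (Fin 2) ℤ := (δ • (cmat u).adjugate) * cmat v with hNv
  have hNv' : cmat u * Nv = cmat v := by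
    rw [hNv, Matrix.smul_mul, Matrix.mul_smul, ← Matrix.mul_assoc, Matrix.mul_adjugate,
      Matrix.smul_mul, Matrix.one_mul, smul_smul, ← hδdef, hδ2, one_smul]
  obtain ⟨v1, hv1⟩ : ∃ v1 : ℤ, v1 = Nv 0 0 := ⟨_, rfl⟩
  have hN10 : Nv 1 0 = δ * e := by
    rw [hNv, Matrix.smul_mul, Matrix.smul_apply, Matrix.adjugate_fin_two, he]
    simp [Matrix.mul_apply, Fin.sum_univ_two]
    left; ring
  set C := cmat X 1 0 with hC
  set D := cmat X 1 1 with hD
  set s : ℤ := -δ * (g * e) with hs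
  obtain ⟨t, ht⟩ : ∃ t : ℤ, (0 ≤ s ∧ t = r + s) ∨ (s < 0 ∧ t = r) := by
    rcases le_or_gt 0 s with h | h
    · exact ⟨r + s, Or.inl ⟨h, rfl⟩⟩
    · exact ⟨r, Or.inr ⟨h, rfl⟩⟩
  obtain ⟨a, b, hab⟩ := hcop
  set k0 : ℤ := a * δ * (t - C * (δ * e) - D * v1) with hk0
  have hm' : (0 : ℤ) < m := by exact_mod_cast hm
  obtain ⟨k, hk⟩ : ∃ k : ℕ, (k : ℤ) = k0 % m := ⟨(k0 % m).toNat,
    Int.toNat_of_nonneg (Int.emod_nonneg _ (by omega))⟩
  refine ⟨k, if 0 ≤ s then s else 0, ?_⟩
  intro c hcw hc2 hcN hcu hcdet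
  have hclast : ∀ t : List ℤ, (t = [] ∨ t.getLast? = some 2) → (c ++ t).getLast? = some 2 := by
    intro t ht
    rcases ht with h | h
    · subst h; simpa using hc2
    · rw [List.getLast?_append, h]; rfl
  have key : ∀ Y : List ℤ, Word12 Y →
      Admissible (cmat ((c ++ u).reverse ++ Y ++ (c ++ v)) 0 0) ∧
      B < cmat ((c ++ u).reverse ++ Y ++ (c ++ v)) 0 0 := by
    intro Y hY
    have hW : Word12 ((c ++ u).reverse ++ Y ++ (c ++ v)) := by
      intro a ha
      simp only [List.mem_append, List.mem_reverse] at ha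
      rcases ha with (((h | h) | h) | (h | h))
      · exact hcw a h
      · exact hu a h
      · exact hY a h
      · exact hcw a h
      · exact hv a h
    have hlen : B.toNat + 1 ≤ ((c ++ u).reverse ++ Y ++ (c ++ v)).length := by
      simp only [List.length_append, List.length_reverse]
      omega
    refine ⟨adm_of_word _ hW ?_ ?_ ?_, ?_⟩
    · intro h
      rw [h] at hlen
      simp at hlen
    · rw [List.append_assoc, List.head?_append]
      rw [List.head?_reverse, hclast u hu2]; rfl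
    · rw [List.getLast?_append, hclast v hv2]; rfl
    · have h4 := (growth _ hW).2.2.2
      have := Int.self_le_toNat B
      omega
  have hXr : Word12 X.reverse := fun a ha => hX a (List.mem_reverse.mp ha)
  obtain ⟨a1, b1⟩ := key X hX
  obtain ⟨a2, b2⟩ := key X.reverse hXr
  have hsw := swap X c u v
  unfold P
  set P := cmat ((c ++ u).reverse ++ X ++ (c ++ v)) 0 0 with hP
  set Q := cmat ((c ++ u).reverse ++ X.reverse ++ (c ++ v)) 0 0 with hQ
  have hcd : (cmat c).det = -δ := by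
    rw [cmat_append, Matrix.det_mul, ← hδdef] at hcdet
    rcases hδ with h | h <;> rw [h] at hcdet ⊢ <;> linarith
  have hPQ : P - Q = s := by rw [hsw, hcd]
  have hdabs : |g| * |e| = |s| := by
    rw [hs, ← abs_mul, abs_mul (-δ)]
    rcases hδ with h | h <;> rw [h] <;> simp
  -- the residue of P
  have hPmod : P ≡ t [ZMOD m] := by
    have e1 : ((P : ℤ) : ZMod q) = ((D * v1 + (C + k * D) * (δ * e) : ℤ) : ZMod q) := by
      have hmat : cmat ((c ++ u).reverse ++ X ++ (c ++ v))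
          = (cmat (c ++ u))ᵀ * cmat X * (cmat (c ++ u) * Nv) := by
        rw [cmat_append, cmat_append, cmat_reverse, cmat_append c u, Matrix.mul_assoc (cmat c),
          hNv', cmat_append]
      have hcast : (Int.castRingHom (ZMod q)).mapMatrix
          (cmat ((c ++ u).reverse ++ X ++ (c ++ v)))
          = (!![0, 1; 1, (k : ZMod q)])ᵀ * (Int.castRingHom (ZMod q)).mapMatrix (cmat X)
            * (!![0, 1; 1, (k : ZMod q)] * (Int.castRingHom (ZMod q)).mapMatrix Nv) := by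
        rw [hmat, map_mul, map_mul, map_mul, ← hcu]
        congr 2
      have h00 := congrFun (congrFun hcast 0) 0
      have hl : (Int.castRingHom (ZMod q)).mapMatrix
          (cmat ((c ++ u).reverse ++ X ++ (c ++ v))) 0 0 = ((P : ℤ) : ZMod q) := by
        rw [hP]; simp
      rw [hl] at h00
      rw [h00, entry00]
      simp only [RingHom.mapMatrix_apply, Matrix.map_apply, hN10, ← hv1, ← hC, ← hD,
        Int.coe_castRingHom]
      push_cast
      ring
    rw [ZMod.intCast_eq_intCast_iff] at e1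
    have e2 : P ≡ D * v1 + (C + k * D) * (δ * e) [ZMOD m] :=
      e1.of_dvd ⟨3, by rw [hqdef]; push_cast; ring⟩
    have e3 : (k : ℤ) ≡ k0 [ZMOD m] := by rw [hk]; exact Int.mod_modEq _ _
    have e4 : D * v1 + (C + k * D) * (δ * e) ≡ D * v1 + (C + k0 * D) * (δ * e) [ZMOD m] :=
      Int.ModEq.add_left _ (Int.ModEq.mul_right _ (Int.ModEq.add_left _ (Int.ModEq.mul_right _ e3)))
    refine e2.trans (e4.trans ?_)
    rw [Int.modEq_iff_dvd]
    refine ⟨b * (t - C * (δ * e) - D * v1), ?_⟩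
    have e5 : a * (D * e) = 1 - b * m := by linarith
    calc t - (D * v1 + (C + k0 * D) * (δ * e))
        = (t - C * (δ * e) - D * v1) - (δ * δ) * (a * (D * e)) * (t - C * (δ * e) - D * v1) := by
          rw [hk0]; ring
      _ = m * (b * (t - C * (δ * e) - D * v1)) := by rw [hδ2, e5]; ring
  rw [hdabs]
  rcases ht with ⟨h, h'⟩ | ⟨h, h'⟩
  · rw [if_pos h]
    have hQP : P - s = Q := by linarith
    rw [hQP]
    refine ⟨b1, b2, ?_, a2, ?_⟩
    · rw [← hQP]
      have h5 := hPmod.sub_right s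
      rw [h'] at h5
      simpa using h5
    · rw [abs_of_nonneg h, ← hPQ]
      have : Q + (P - Q) = P := by ring
      rw [this]; exact a1
  · rw [if_neg (by omega), sub_zero]
    refine ⟨b1, b1, ?_, a1, ?_⟩
    · rw [← h']; exact hPmod
    · rw [abs_of_neg h, ← hPQ]
      have : P + -(P - Q) = Q := by ring
      rw [this]; exact a2

/-- The word whose matrix is used for the bound of the multiplicities. -/
def W (X u c : List ℤ) : List ℤ := (c ++ u).reverse ++ X ++ (c ++ u)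

theorem W_inj (X u c c' : List ℤ) (h : W X u c = W X u c') : c = c' := by
  unfold W at h
  have hl : (c ++ u).length = (c' ++ u).length := by
    have := congrArg List.length h
    simp only [List.length_append, List.length_reverse] at this ⊢
    omega
  have h2 : c ++ u = c' ++ u := (List.append_inj' h hl).2
  exact List.append_cancel_right h2

theorem c_inj (X u v c c' : List ℤ) (hX : Word12 X) (hu : Word12 u)
    (hu2 : u = [] ∨ u.getLast? = some 2)
    (he0 : cmat u 0 0 * cmat v 1 0 - cmat u 1 0 * cmat v 0 0 ≠ 0)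
    (hc : Word12 c) (hc' : Word12 c') (hl : c.getLast? = some 2) (hl' : c'.getLast? = some 2)
    (hd : (cmat (c ++ u)).det = -1) (hd' : (cmat (c' ++ u)).det = -1)
    (hP : P X u v c = P X u v c')
    (hx : cmat (W X u c) 0 0 = cmat (W X u c') 0 0) : c = c' := by
  have hlast : ∀ c : List ℤ, c.getLast? = some 2 → (c ++ u).getLast? = some 2 := by
    intro c hc
    rcases hu2 with h | h
    · subst h; simpa using hc
    · rw [List.getLast?_append, h]; rfl
  have hWw : ∀ c : List ℤ, Word12 c → Word12 (W X u c) := by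
    intro c hc
    exact word_append (word_append (word_reverse (word_append hc hu)) hX) (word_append hc hu)
  have hWl : ∀ c : List ℤ, c.getLast? = some 2 → (W X u c).getLast? = some 2 := by
    intro c hc
    unfold W
    rw [List.getLast?_append, hlast c hc]; rfl
  obtain ⟨p1, p2, p3⟩ := data X u v c hd
  obtain ⟨p1', p2', p3'⟩ := data X u v c' hd'
  have hδ : (cmat u).det ≠ 0 := by
    rcases det_cmat u with h | h <;> rw [h] <;> norm_num
  have hy : cmat (W X u c) 0 1 = cmat (W X u c') 0 1 := by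
    have h1 : cmat (W X u c) 0 1 * ((cmat u).det * (cmat u 0 0 * cmat v 1 0 - cmat u 1 0 * cmat v 0 0))
        = cmat (W X u c') 0 1
          * ((cmat u).det * (cmat u 0 0 * cmat v 1 0 - cmat u 1 0 * cmat v 0 0)) := by
      unfold W P at *
      rw [p2, p2', hx] at hP
      linarith
    exact mul_right_cancel₀ (mul_ne_zero hδ he0) h1
  have hy' : cmat (W X u c) 1 0 = cmat (W X u c') 1 0 := by
    unfold W at *
    rw [p1, p1', hy]
  exact W_inj X u c c' (col_inj _ _ (hWw c hc) (hWw c' hc') (Or.inr (hWl c hl))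
    (Or.inr (hWl c' hl')) hx hy')

theorem x_dvd (X u v c : List ℤ) (hd : (cmat (c ++ u)).det = -1) :
    cmat (W X u c) 0 0 ∣ P X u v c ^ 2
      + (cmat X 0 1 - cmat X 1 0)
        * ((cmat u).det * (cmat u 0 0 * cmat v 1 0 - cmat u 1 0 * cmat v 0 0)) * P X u v c
      + (cmat X).det * ((cmat u).det * (cmat u 0 0 * cmat v 1 0 - cmat u 1 0 * cmat v 0 0)) ^ 2 := by
  obtain ⟨p1, p2, p3⟩ := data X u v c hd
  unfold P W
  rw [p2, ← p3, p1]
  generalize cmat ((c ++ u).reverse ++ X ++ (c ++ u)) 0 0 = x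
  generalize cmat ((c ++ u).reverse ++ X ++ (c ++ u)) 0 1 = y
  generalize cmat ((c ++ u).reverse ++ X ++ (c ++ u)) 1 1 = z
  generalize (((cmat u).det • (cmat u).adjugate) * cmat v) 0 0 = v1
  generalize ((cmat u).det * (cmat u 0 0 * cmat v 1 0 - cmat u 1 0 * cmat v 0 0)) = E
  generalize (cmat X 0 1 - cmat X 1 0) = g
  exact ⟨x * v1 ^ 2 + 2 * v1 * y * E + g * E * v1 + E ^ 2 * z, by ring⟩

theorem size_bd (X u v c f : List ℤ) (hX : Word12 X) (hu : Word12 u) (hv : Word12 v)
    (hc : Word12 c) (hf : Word12 f) :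
    P X u v (c ++ f) ≤ 16 * (nrm f ^ 2 * nrm u * nrm v * nrm X) * cmat c 0 0 ^ 2 := by
  have hcf := word_append hc hf
  have hcfu := word_append hcf hu
  have hcfv := word_append hcf hv
  have n1 := nrm_append c f hc hf
  have n2 := nrm_append (c ++ f) u hcf hu
  have n3 := nrm_append (c ++ f) v hcf hv
  have n4 := nrm_append (c ++ f ++ u).reverse X (word_reverse hcfu) hX
  have n5 := nrm_append ((c ++ f ++ u).reverse ++ X) (c ++ f ++ v)
    (word_append (word_reverse hcfu) hX) hcfv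
  rw [nrm_reverse] at n4
  have n6 := (nrm_bd ((c ++ f ++ u).reverse ++ X ++ (c ++ f ++ v))
    (word_append (word_append (word_reverse hcfu) hX) hcfv)).1
  have n7 := (nrm_bd c hc).2
  have k1 := nrm_pos c hc
  have k2 := nrm_pos f hf
  have k3 := nrm_pos u hu
  have k4 := nrm_pos v hv
  have k5 := nrm_pos X hX
  have k6 := nrm_pos _ hcf
  have k7 := nrm_pos _ hcfu
  have k8 := nrm_pos _ hcfv
  have c1 : 1 ≤ cmat c 0 0 := (growth c hc).1
  have b1 : nrm (c ++ f) ≤ 4 * cmat c 0 0 * nrm f :=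
    n1.trans (mul_le_mul_of_nonneg_right n7 (by omega))
  have b2 : nrm (c ++ f ++ u) ≤ 4 * cmat c 0 0 * nrm f * nrm u :=
    n2.trans (mul_le_mul_of_nonneg_right b1 (by omega))
  have b3 : nrm (c ++ f ++ v) ≤ 4 * cmat c 0 0 * nrm f * nrm v :=
    n3.trans (mul_le_mul_of_nonneg_right b1 (by omega))
  unfold P
  calc cmat ((c ++ f ++ u).reverse ++ X ++ (c ++ f ++ v)) 0 0
      ≤ nrm ((c ++ f ++ u).reverse ++ X ++ (c ++ f ++ v)) := n6
    _ ≤ nrm ((c ++ f ++ u).reverse ++ X) * nrm (c ++ f ++ v) := n5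
    _ ≤ (nrm (c ++ f ++ u) * nrm X) * nrm (c ++ f ++ v) :=
        mul_le_mul_of_nonneg_right n4 (by omega)
    _ ≤ ((4 * cmat c 0 0 * nrm f * nrm u) * nrm X) * (4 * cmat c 0 0 * nrm f * nrm v) := by
        apply mul_le_mul _ b3 (by omega) (by positivity)
        exact mul_le_mul_of_nonneg_right b2 (by omega)
    _ = 16 * (nrm f ^ 2 * nrm u * nrm v * nrm X) * cmat c 0 0 ^ 2 := by ring

theorem asym (A C : ℝ) (hC : 0 < C) : ∃ N₀ : ℕ, ∀ N : ℕ, N₀ ≤ N →
    A * (N : ℝ) ^ (0.53 : ℝ) * (C * (N : ℝ) ^ 2) ^ (1 / 10000 : ℝ) < (N : ℝ) ^ (35 / 66 : ℝ) := by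
  have h1 : Filter.Tendsto (fun N : ℕ => (N : ℝ) ^ (35 / 66 - 5302 / 10000 : ℝ))
      Filter.atTop Filter.atTop :=
    (tendsto_rpow_atTop (by norm_num)).comp tendsto_natCast_atTop_atTop
  obtain ⟨N₀, hN₀⟩ := Filter.eventually_atTop.mp
    (h1.eventually_gt_atTop (A * C ^ (1 / 10000 : ℝ)))
  refine ⟨max N₀ 1, fun N hN => ?_⟩
  have hN1 : 1 ≤ N := (le_max_right _ _).trans hN
  have hNpos : (0 : ℝ) < N := by exact_mod_cast hN1
  have h2 := hN₀ N ((le_max_left _ _).trans hN)
  have h3 : (C * (N : ℝ) ^ 2) ^ (1 / 10000 : ℝ)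
      = C ^ (1 / 10000 : ℝ) * (N : ℝ) ^ (2 / 10000 : ℝ) := by
    rw [Real.mul_rpow hC.le (by positivity), ← Real.rpow_natCast, ← Real.rpow_mul hNpos.le]
    norm_num
  have h4 : (N : ℝ) ^ (35 / 66 : ℝ) = (N : ℝ) ^ (35 / 66 - 5302 / 10000 : ℝ)
      * ((N : ℝ) ^ (0.53 : ℝ) * (N : ℝ) ^ (2 / 10000 : ℝ)) := by
    rw [← Real.rpow_add hNpos, ← Real.rpow_add hNpos]
    norm_num
  rw [h3, h4]
  have h5 : (0 : ℝ) < (N : ℝ) ^ (0.53 : ℝ) * (N : ℝ) ^ (2 / 10000 : ℝ) := by positivity
  calc A * (N : ℝ) ^ (0.53 : ℝ) * (C ^ (1 / 10000 : ℝ) * (N : ℝ) ^ (2 / 10000 : ℝ))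
      = (A * C ^ (1 / 10000 : ℝ)) * ((N : ℝ) ^ (0.53 : ℝ) * (N : ℝ) ^ (2 / 10000 : ℝ)) := by ring
    _ < _ := mul_lt_mul_of_pos_right h2 h5

theorem words_count (Y : ℝ) (hY : 1 ≤ Y) : ∃ F : Finset (List ℤ),
    (∀ w ∈ F, Word12 w ∧ (cmat w 0 0 : ℝ) ≤ Y) ∧ 1 / 20 * Y ^ (35 / 33 : ℝ) ≤ F.card := by
  obtain ⟨n, hn⟩ := pow_unbounded_of_one_lt Y (show (1 : ℝ) < 4 / 3 by norm_num)
  obtain ⟨F, hF, hc⟩ := count_aux n (1 / 2) Y (by norm_num) (by norm_num) hY
    (by have : (0 : ℝ) < (4 / 3) ^ n := by positivity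
        linarith)
  refine ⟨F, fun w hw => ?_, ?_⟩
  · obtain ⟨h1, h2⟩ := hF w hw
    refine ⟨h1, ?_⟩
    have h3 := (growth w h1).2.1
    have h4 : (0 : ℝ) ≤ (cmat w 1 0 : ℝ) := by exact_mod_cast h3
    linarith
  · refine le_trans ?_ hc
    have h5 : (0 : ℝ) ≤ Y ^ (35 / 33 : ℝ) := Real.rpow_nonneg (by linarith) _
    have h6 : 1 / 9 * (Y ^ (35 / 33 : ℝ) / (171 / 100 + 1 / 2))
        = 100 / 1989 * Y ^ (35 / 33 : ℝ) := by ring
    rw [h6]
    nlinarith

/-- For all words `X`, `u`, `v` over `{1,2}` such that `u` and `v` are empty or end in `2`, put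
`g = K(X without its last letter) - K(X without its first letter)` and
`e = K(u) K(v without its first letter) - K(u without its first letter) K(v)`.
If `e ≠ 0` and `m` is coprime to `e` and to `K(X without its first and last letter)`, then for
every residue class modulo `m` and all large `N` there are at least `N ^ 0.53` integers `n` with
`0 < n ≤ N` in this class such that `n` and `n + |g| |e|` are both admissible. -/
theorem result (X u v : List ℤ) (hX : Word12 X) (hu : Word12 u) (hv : Word12 v)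
    (hu2 : u = [] ∨ u.getLast? = some 2) (hv2 : v = [] ∨ v.getLast? = some 2)
    (he0 : cmat u 0 0 * cmat v 1 0 - cmat u 1 0 * cmat v 0 0 ≠ 0)
    (m : ℕ) (hm : 0 < m)
    (hcop : IsCoprime (cmat X 1 1 * (cmat u 0 0 * cmat v 1 0 - cmat u 1 0 * cmat v 0 0)) (m : ℤ))
    (r : ℤ) :
    ∃ N₀ : ℕ, ∀ N : ℕ, N₀ ≤ N → (N : ℝ) ^ (0.53 : ℝ) ≤
      ({n : ℤ | 0 < n ∧ n ≤ N ∧ n ≡ r [ZMOD m] ∧ Admissible n ∧
        Admissible (n + |cmat X 0 1 - cmat X 1 0|
          * |cmat u 0 0 * cmat v 1 0 - cmat u 1 0 * cmat v 0 0|)}.ncard : ℝ) := by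
  classical
  obtain ⟨q, hqdef⟩ : ∃ q : ℕ, q = 3 * m := ⟨_, rfl⟩
  have hqz : NeZero q := ⟨by omega⟩
  have hq3 : 3 ≤ q := by omega
  obtain ⟨g, hg⟩ : ∃ g, g = cmat X 0 1 - cmat X 1 0 := ⟨_, rfl⟩
  obtain ⟨E, hE⟩ : ∃ E, E = (cmat u).det
    * (cmat u 0 0 * cmat v 1 0 - cmat u 1 0 * cmat v 0 0) := ⟨_, rfl⟩
  obtain ⟨B, hB⟩ : ∃ B : ℤ, B = |g * E| + E ^ 2 + 1 := ⟨_, rfl⟩
  obtain ⟨dd, hdd⟩ : ∃ dd : ℤ, dd = |cmat X 0 1 - cmat X 1 0|
      * |cmat u 0 0 * cmat v 1 0 - cmat u 1 0 * cmat v 0 0| := ⟨_, rfl⟩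
  obtain ⟨k, σ, hcore⟩ := core X u v hX hu hv hu2 hv2 m hm hcop r B
  rw [← hqdef] at hcore
  rw [← hdd] at hcore ⊢
  obtain ⟨f, hf⟩ := extend q hq3 u hu k (B.toNat + 1)
  have hfin : Finite (Matrix (Fin 2) (Fin 2) (ZMod q))ˣ := inferInstance
  have : Fintype (Matrix (Fin 2) (Fin 2) (ZMod q))ˣ := Fintype.ofFinite _
  obtain ⟨G, hG⟩ : ∃ G : ℕ, G = Fintype.card (Matrix (Fin 2) (Fin 2) (ZMod q))ˣ := ⟨_, rfl⟩
  have hGpos : 0 < G := by rw [hG]; exact Fintype.card_pos
  obtain ⟨T, hTdef⟩ : ∃ T : ℤ → ℤ, ∀ p, T p = p ^ 2 + g * E * p + (cmat X).det * E ^ 2 :=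
    ⟨fun p => p ^ 2 + g * E * p + (cmat X).det * E ^ 2, fun p => rfl⟩
  have hT : ∀ p : ℤ, B < p → T p ≠ 0 ∧ |T p| ≤ B * p ^ 2 := by
    intro p hp
    have habs := abs_nonneg (g * E)
    have h1 : -(|g * E|) ≤ g * E := neg_abs_le _
    have h2 : g * E ≤ |g * E| := le_abs_self _
    have hE2 : 0 ≤ E ^ 2 := sq_nonneg E
    have hp1 : 1 ≤ p := by linarith
    have h3 : -(|g * E|) * p ≤ g * E * p := mul_le_mul_of_nonneg_right h1 (by omega)
    have h4 : g * E * p ≤ |g * E| * p := mul_le_mul_of_nonneg_right h2 (by omega)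
    have h5 : -(E ^ 2) ≤ (cmat X).det * E ^ 2 ∧ (cmat X).det * E ^ 2 ≤ E ^ 2 := by
      rcases det_cmat X with h | h <;> rw [h] <;> constructor <;> linarith
    rw [hTdef]
    generalize |g * E| = a at *
    constructor
    · apply ne_of_gt
      nlinarith
    · have hpp : p ≤ p ^ 2 := by nlinarith
      have h6 : a * p ≤ a * p ^ 2 := mul_le_mul_of_nonneg_left hpp habs
      have h7 : E ^ 2 * 1 ≤ E ^ 2 * p ^ 2 := mul_le_mul_of_nonneg_left (by linarith) hE2
      have h8 : (a + E ^ 2 + 1) * p ^ 2 = a * p ^ 2 + E ^ 2 * p ^ 2 + p ^ 2 := by ring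
      rw [abs_le, hB, h8]
      obtain ⟨h5a, h5b⟩ := h5
      constructor
      · linarith [sq_nonneg p]
      · linarith
  obtain ⟨φ, hφdef⟩ : ∃ φ : List ℤ → ℤ, ∀ w, φ w = P X u v (w ++ f (up q w)) - σ :=
    ⟨fun w => P X u v (w ++ f (up q w)) - σ, fun w => rfl⟩
  have hfw : ∀ w, Word12 w → Word12 (f (up q w)) := fun w hw => (hf w hw).1
  have hφ : ∀ w, Word12 w → B < P X u v (w ++ f (up q w)) ∧ B < φ w ∧ φ w ≡ r [ZMOD m] ∧
      Admissible (φ w) ∧ Admissible (φ w + dd) := by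
    intro w hw
    obtain ⟨h1, h2, h3, h4, h5⟩ := hf w hw
    rw [hφdef]
    exact hcore (w ++ f (up q w)) (word_append hw h1) h2 h3 h4 h5
  -- fibres
  have fiber : ∀ F : Finset (List ℤ), (∀ w ∈ F, Word12 w) → ∀ n : ℤ,
      (F.filter (fun w => φ w = n)).card ≤ (T (n + σ)).natAbs.divisors.card * G := by
    intro F hF n
    have h1 : (F.filter (fun w => φ w = n)).card ≤
        ((T (n + σ)).natAbs.divisors ×ˢ
          (Finset.univ : Finset (Matrix (Fin 2) (Fin 2) (ZMod q))ˣ)).card := by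
      apply Finset.card_le_card_of_injOn
        (fun w => ((cmat (W X u (w ++ f (up q w))) 0 0).natAbs, up q w))
      · intro w hw
        rw [Finset.mem_coe, Finset.mem_filter] at hw
        obtain ⟨hwF, hwn⟩ := hw
        have hwW := hF w hwF
        obtain ⟨h1, h2, h3, h4, h5⟩ := hf w hwW
        have hPn : P X u v (w ++ f (up q w)) = n + σ := by
          rw [hφdef] at hwn; linarith
        have hx := x_dvd X u v (w ++ f (up q w)) h5
        rw [hPn, ← hg, ← hE, ← hTdef] at hx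
        rw [Finset.mem_coe, Finset.mem_product, Nat.mem_divisors]
        refine ⟨⟨Int.natAbs_dvd_natAbs.mpr hx, ?_⟩, Finset.mem_univ _⟩
        rw [Int.natAbs_ne_zero]
        apply (hT _ _).1
        rw [← hPn]
        exact (hφ w hwW).1
      · intro w hw w' hw' heq
        rw [Finset.mem_coe, Finset.mem_filter] at hw hw'
        obtain ⟨hwF, hwn⟩ := hw
        obtain ⟨hwF', hwn'⟩ := hw'
        have hwW := hF w hwF
        have hwW' := hF w' hwF'
        obtain ⟨h1, h2, h3, h4, h5⟩ := hf w hwW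
        obtain ⟨h1', h2', h3', h4', h5'⟩ := hf w' hwW'
        simp only [Prod.mk.injEq] at heq
        obtain ⟨hx, hup⟩ := heq
        have hWw : ∀ c : List ℤ, Word12 c → Word12 (W X u c) := by
          intro c hc
          exact word_append (word_append (word_reverse (word_append hc hu)) hX)
            (word_append hc hu)
        have p1 := (growth _ (hWw _ (word_append hwW h1))).1
        have p2 := (growth _ (hWw _ (word_append hwW' h1'))).1
        have hx' : cmat (W X u (w ++ f (up q w))) 0 0 = cmat (W X u (w' ++ f (up q w'))) 0 0 := by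
          omega
        have hPP : P X u v (w ++ f (up q w)) = P X u v (w' ++ f (up q w')) := by
          rw [hφdef] at hwn hwn'; linarith
        have := c_inj X u v _ _ hX hu hu2 he0 (word_append hwW h1) (word_append hwW' h1')
          h2 h2' h5 h5' hPP hx'
        rw [hup] at this
        exact List.append_cancel_right this
    rw [Finset.card_product, Finset.card_univ, ← hG] at h1
    exact h1
  -- sizes
  obtain ⟨M, hM⟩ := (Set.finite_range (fun γ : (Matrix (Fin 2) (Fin 2) (ZMod q))ˣ =>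
    nrm (f γ))).bddAbove
  have hM' : ∀ γ, nrm (f γ) ≤ M := fun γ => hM ⟨γ, rfl⟩
  have hnil : Word12 [] := by intro a ha; simp at ha
  have hM1 : 1 ≤ M := (nrm_pos _ (hfw [] hnil)).trans (hM' _)
  obtain ⟨S, hSdef⟩ : ∃ S : ℤ, S = 16 * (M ^ 2 * nrm u * nrm v * nrm X) := ⟨_, rfl⟩
  have ku := nrm_pos u hu
  have kv := nrm_pos v hv
  have kX := nrm_pos X hX
  have hSpos : 0 < S := by rw [hSdef]; positivity
  have hS : ∀ w, Word12 w → P X u v (w ++ f (up q w)) ≤ S * cmat w 0 0 ^ 2 := by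
    intro w hw
    have h1 := size_bd X u v w (f (up q w)) hX hu hv hw (hfw w hw)
    refine h1.trans ?_
    rw [hSdef]
    have h2 : 0 ≤ nrm (f (up q w)) := by have := nrm_pos _ (hfw w hw); omega
    have h3 : nrm (f (up q w)) ^ 2 ≤ M ^ 2 := pow_le_pow_left₀ h2 (hM' _) 2
    have h4 : nrm (f (up q w)) ^ 2 * nrm u * nrm v * nrm X ≤ M ^ 2 * nrm u * nrm v * nrm X := by
      gcongr
    have h5 : 0 ≤ cmat w 0 0 ^ 2 := sq_nonneg _
    nlinarith
  -- divisor bound
  obtain ⟨C, hCpos, hC⟩ := divisor_bound 10000 (by norm_num)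
  have hBpos : 0 < B := by
    have := abs_nonneg (g * E)
    have := sq_nonneg E
    omega
  have hSr : (0 : ℝ) < S := by exact_mod_cast hSpos
  have hBr : (0 : ℝ) < B := by exact_mod_cast hBpos
  have hCr : (0 : ℝ) < C := by exact_mod_cast hCpos
  have hGr : (0 : ℝ) < G := by exact_mod_cast hGpos
  obtain ⟨N₁, hN₁⟩ := asym (20 * (2 * S : ℝ) ^ (35 / 66 : ℝ) * G) (C * B * 4)
    (by positivity)
  refine ⟨max N₁ (max (2 * σ.natAbs) (2 * S).toNat), fun N hN => ?_⟩
  have hNa : N₁ ≤ N := (le_max_left _ _).trans hN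
  have hNb : 2 * σ.natAbs ≤ N := (le_max_left _ _).trans ((le_max_right _ _).trans hN)
  have hNc : (2 * S).toNat ≤ N := (le_max_right _ _).trans ((le_max_right _ _).trans hN)
  have hNS : 2 * S ≤ N := by omega
  have hNσ : 2 * |σ| ≤ N := by rw [Int.abs_eq_natAbs]; omega
  have hNpos : 0 < N := by omega
  have hNr : (0 : ℝ) < N := by exact_mod_cast hNpos
  have hNSr : (2 : ℝ) * S ≤ N := by exact_mod_cast hNS
  obtain ⟨Y, hYdef⟩ : ∃ Y : ℝ, Y = ((N : ℝ) / (2 * S)) ^ (1 / 2 : ℝ) := ⟨_, rfl⟩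
  have hquo : 1 ≤ (N : ℝ) / (2 * S) := by
    rw [le_div_iff₀ (by positivity)]; linarith
  have hY1 : 1 ≤ Y := by rw [hYdef]; exact Real.one_le_rpow hquo (by norm_num)
  have hY2 : Y ^ 2 = (N : ℝ) / (2 * S) := by
    rw [hYdef, ← Real.rpow_natCast, ← Real.rpow_mul (by positivity)]
    norm_num
  have hY3 : Y ^ (35 / 33 : ℝ) = (N : ℝ) ^ (35 / 66 : ℝ) / (2 * S : ℝ) ^ (35 / 66 : ℝ) := by
    rw [hYdef, ← Real.rpow_mul (by positivity), ← Real.div_rpow (by positivity) (by positivity)]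
    norm_num
  obtain ⟨F, hF, hFc⟩ := words_count Y hY1
  have hFw : ∀ w ∈ F, Word12 w := fun w hw => (hF w hw).1
  have hup : ∀ w ∈ F, φ w ≤ N ∧ φ w + σ ≤ 2 * N := by
    intro w hw
    have h1 := hS w (hFw w hw)
    have h2 := (hF w hw).2
    have h3 : (0 : ℝ) ≤ cmat w 0 0 := by
      have := (growth w (hFw w hw)).1
      exact_mod_cast (by omega : 0 ≤ cmat w 0 0)
    have h4 : (cmat w 0 0 : ℝ) ^ 2 ≤ (N : ℝ) / (2 * S) := by
      rw [← hY2]; exact pow_le_pow_left₀ h3 h2 2
    have h5 : (S : ℝ) * (cmat w 0 0 : ℝ) ^ 2 * 2 ≤ N := by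
      rw [le_div_iff₀ (by positivity)] at h4; linarith
    have h6 : S * cmat w 0 0 ^ 2 * 2 ≤ N := by exact_mod_cast h5
    have h7 := neg_abs_le σ
    rw [hφdef]
    constructor
    · omega
    · omega
  obtain ⟨R, hR⟩ : ∃ R : ℝ, R = (C * B * 4 * (N : ℝ) ^ 2) ^ (1 / 10000 : ℝ) := ⟨_, rfl⟩
  have hR0 : 0 ≤ R := by rw [hR]; positivity
  have hcard : F.card ≤ (⌊R⌋₊ * G) * (F.image φ).card := by
    apply Finset.card_le_mul_card_image
    intro n hn
    rw [Finset.mem_image] at hn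
    obtain ⟨w, hw, hwn⟩ := hn
    refine (fiber F hFw n).trans (Nat.mul_le_mul_right _ (Nat.le_floor ?_))
    have h0 := (hφ w (hFw w hw)).1
    have h1 : n + σ = P X u v (w ++ f (up q w)) := by rw [← hwn, hφdef]; ring
    rw [← h1] at h0
    obtain ⟨t1, t2⟩ := hT (n + σ) h0
    have h2 := hC (T (n + σ)).natAbs (Int.natAbs_ne_zero.mpr t1)
    have h3 : n + σ ≤ 2 * N := by rw [← hwn]; exact (hup w hw).2
    have h4 : |T (n + σ)| ≤ B * (4 * N ^ 2) := by
      refine t2.trans (mul_le_mul_of_nonneg_left ?_ hBpos.le)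
      nlinarith
    obtain ⟨a, ha⟩ : ∃ a : ℕ, a = (T (n + σ)).natAbs := ⟨_, rfl⟩
    have h5 : (a : ℤ) ≤ B * (4 * N ^ 2) := by
      rw [ha, Int.natCast_natAbs]; exact h4
    have h6 : (a : ℝ) ≤ B * (4 * (N : ℝ) ^ 2) := by exact_mod_cast h5
    rw [← ha] at h2 ⊢
    have h7 : ((a.divisors.card : ℝ)) ^ 10000 ≤ C * a := by
      rw [← Nat.cast_pow, ← Nat.cast_mul]
      exact Nat.cast_le.mpr h2
    have h8 : ((a.divisors.card : ℝ)) ^ 10000 ≤ C * B * 4 * (N : ℝ) ^ 2 := by
      refine h7.trans ?_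
      calc (C : ℝ) * a ≤ C * (B * (4 * (N : ℝ) ^ 2)) := mul_le_mul_of_nonneg_left h6 hCr.le
        _ = _ := by ring
    generalize hb : (a.divisors.card : ℝ) = b at *
    have hb0 : 0 ≤ b := by rw [← hb]; exact Nat.cast_nonneg _
    have h9 : (b ^ 10000) ^ (1 / 10000 : ℝ) = b := by
      rw [one_div]
      exact Real.pow_rpow_inv_natCast hb0 (by norm_num)
    rw [← h9, hR]
    exact Real.rpow_le_rpow (pow_nonneg hb0 _) h8 (by norm_num)
  set Z : Set ℤ := {n : ℤ | 0 < n ∧ n ≤ N ∧ n ≡ r [ZMOD m] ∧ Admissible n ∧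
    Admissible (n + dd)} with hZ
  have hZfin : Z.Finite := (Set.finite_Icc (0 : ℤ) N).subset (by
    intro n hn
    exact ⟨hn.1.le, hn.2.1⟩)
  have hsub : ((F.image φ : Finset ℤ) : Set ℤ) ⊆ Z := by
    intro n hn
    rw [Finset.mem_coe, Finset.mem_image] at hn
    obtain ⟨w, hw, rfl⟩ := hn
    obtain ⟨h1, h2, h3, h4, h5⟩ := hφ w (hFw w hw)
    exact ⟨by omega, (hup w hw).1, h3, h4, h5⟩
  have hle : (F.image φ).card ≤ Z.ncard := by
    rw [← Set.ncard_coe_finset]
    exact Set.ncard_le_ncard hsub hZfin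
  by_contra hcon
  push Not at hcon
  have hmain := hN₁ N hNa
  rw [← hR] at hmain
  have q1 : (F.card : ℝ) ≤ (R * G) * Z.ncard := by
    have h1 : (F.card : ℝ) ≤ ((⌊R⌋₊ : ℝ) * G) * (F.image φ).card := by exact_mod_cast hcard
    have h2 : (⌊R⌋₊ : ℝ) ≤ R := Nat.floor_le hR0
    have h3 : ((F.image φ).card : ℝ) ≤ Z.ncard := by exact_mod_cast hle
    calc (F.card : ℝ) ≤ ((⌊R⌋₊ : ℝ) * G) * (F.image φ).card := h1
      _ ≤ (R * G) * Z.ncard := by gcongr
  have hS66 : (0 : ℝ) < (2 * S : ℝ) ^ (35 / 66 : ℝ) := by positivity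
  rw [hY3] at hFc
  have q2 : 1 / 20 * ((N : ℝ) ^ (35 / 66 : ℝ) / (2 * S : ℝ) ^ (35 / 66 : ℝ))
      ≤ (R * G) * (N : ℝ) ^ (0.53 : ℝ) :=
    hFc.trans (q1.trans (mul_le_mul_of_nonneg_left hcon.le (by positivity)))
  have q3 : (N : ℝ) ^ (35 / 66 : ℝ)
      ≤ 20 * (2 * S : ℝ) ^ (35 / 66 : ℝ) * G * (N : ℝ) ^ (0.53 : ℝ) * R := by
    have h1 : (N : ℝ) ^ (35 / 66 : ℝ) = (20 * (2 * S : ℝ) ^ (35 / 66 : ℝ))
        * (1 / 20 * ((N : ℝ) ^ (35 / 66 : ℝ) / (2 * S : ℝ) ^ (35 / 66 : ℝ))) := by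
      field_simp
    rw [h1]
    calc (20 * (2 * S : ℝ) ^ (35 / 66 : ℝ))
        * (1 / 20 * ((N : ℝ) ^ (35 / 66 : ℝ) / (2 * S : ℝ) ^ (35 / 66 : ℝ)))
        ≤ (20 * (2 * S : ℝ) ^ (35 / 66 : ℝ)) * ((R * G) * (N : ℝ) ^ (0.53 : ℝ)) :=
          mul_le_mul_of_nonneg_left q2 (by positivity)
      _ = _ := by ring
  linarith

end Pool.Agent.Results.MP_a048aa_nt.TwinCount
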